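import Mathlib

/-! The gadget lemma for MP_61102a_co (abstract form): an order-preserving map which maps the lower
points of a gadget above some lower point of the same sort and the upper points below some upper
point of the same sort acts on the gadget by one permutation of the labels. -/

set_option autoImplicit false

namespace Pool.Agent.AC33

variable {α ι : Type*} [PartialOrder α]

/-- The four sorts `A, F` (lower) and `G, D` (upper) of a gadget with label set `ι` inside the poset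
`α`: the order relations between them, and the fact that nothing else lies between a lower and an
upper point. -/
structure IsGadget (A F G D : ι → α) : Prop where
  AG : ∀ l m, A l ≤ G m ↔ l = m
  FG : ∀ l m, F l ≤ G m ↔ l = m
  FD : ∀ l m, F l ≤ D m ↔ l = m
  AD : ∀ l m, A l ≤ D m ↔ l ≠ m
  GD : ∀ l m, ¬ G l ≤ D m
  FA : ∀ l m, ¬ F l ≤ A m
  AF : ∀ l m, ¬ A l ≤ F m
  iAG : ∀ l m x, A l ≤ x → x ≤ G m → x = A l ∨ x = G m
  iFG : ∀ l m x, F l ≤ x → x ≤ G m → x = F l ∨ x = G m
  iFD : ∀ l m x, F l ≤ x → x ≤ D m → x = F l ∨ x = D m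

theorem IsGadget.perm [Finite ι] [Nontrivial ι] {A F G D : ι → α} (h : IsGadget A F G D)
    {f : α → α} (hf : Monotone f)
    (hA : ∀ l, ∃ l', A l' ≤ f (A l)) (hF : ∀ l, ∃ l', F l' ≤ f (F l))
    (hG : ∀ l, ∃ l', f (G l) ≤ G l') (hD : ∀ l, ∃ l', f (D l) ≤ D l') :
    ∃ σ : Equiv.Perm ι, ∀ l, f (A l) = A (σ l) ∧ f (F l) = F (σ l) ∧ f (G l) = G (σ l) ∧
      f (D l) = D (σ l) := by
  classical
  choose a ha using hA
  choose φ hφ using hF
  choose g hg using hG
  choose δ hδ using hD
  have fAG : ∀ l, f (A l) ≤ f (G l) := fun l => hf ((h.AG l l).2 rfl)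
  have fFG : ∀ l, f (F l) ≤ f (G l) := fun l => hf ((h.FG l l).2 rfl)
  have fFD : ∀ l, f (F l) ≤ f (D l) := fun l => hf ((h.FD l l).2 rfl)
  have fAD : ∀ l m, l ≠ m → f (A l) ≤ f (D m) := fun l m hlm => hf ((h.AD l m).2 hlm)
  have e1 : ∀ l, a l = g l := fun l => (h.AG _ _).1 ((ha l).trans ((fAG l).trans (hg l)))
  have e2 : ∀ l, φ l = g l := fun l => (h.FG _ _).1 ((hφ l).trans ((fFG l).trans (hg l)))
  have e3 : ∀ l, φ l = δ l := fun l => (h.FD _ _).1 ((hφ l).trans ((fFD l).trans (hδ l)))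
  have hA' : ∀ l, A (g l) ≤ f (A l) := fun l => by rw [← e1]; exact ha l
  have hF' : ∀ l, F (g l) ≤ f (F l) := fun l => by rw [← e2]; exact hφ l
  have hD' : ∀ l, f (D l) ≤ D (g l) := fun l => by rw [← e2, e3]; exact hδ l
  have inj : Function.Injective g := by
    intro l m hlm
    by_contra hne
    exact (h.AD _ _).1 ((hA' l).trans ((fAD l m hne).trans (hD' m))) hlm
  have hbij : Function.Bijective g := Finite.injective_iff_bijective.1 inj
  refine ⟨Equiv.ofBijective g hbij, fun l => ?_⟩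
  simp only [Equiv.ofBijective_apply]
  obtain ⟨m, hm⟩ := exists_ne l
  have hFl : f (F l) = F (g l) := by
    rcases h.iFG _ _ _ (hF' l) ((fFG l).trans (hg l)) with h1 | h1
    · exact h1
    · exact absurd (h1 ▸ (fFD l).trans (hD' l)) (h.GD _ _)
  have hAl : ∀ l, f (A l) = A (g l) := by
    intro l
    obtain ⟨m, hm⟩ := exists_ne l
    rcases h.iAG _ _ _ (hA' l) ((fAG l).trans (hg l)) with h1 | h1
    · exact h1
    · exact absurd (h1 ▸ (fAD l m hm.symm).trans (hD' m)) (h.GD _ _)
  refine ⟨hAl l, hFl, ?_, ?_⟩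
  · rcases h.iAG _ _ _ ((hA' l).trans (fAG l)) (hg l) with h1 | h1
    · exact absurd (by rw [← h1, ← hFl]; exact fFG l) (h.FA (g l) (g l))
    · exact h1
  · rcases h.iFD _ _ _ ((hF' l).trans (fFD l)) (hD' l) with h1 | h1
    · exact absurd (by rw [← h1, ← hAl m]; exact fAD m l hm) (h.AF (g m) (g l))
    · exact h1

end Pool.Agent.AC33
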